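import Mathlib
import Pool.Agent.Lib.MP_47869a_co.Link

set_option autoImplicit false

namespace Pool.Agent.Results.MP_47869a_co.IotaDominatesTau

/-- The permutation `π` of size `n` contains the uniform distant pattern `dist_r(q)`: there are
positions `i_1 < i_2 < ... < i_m` with `i_{j+1} - i_j ≥ r + 1` for all `j` such that
`π(i_a) < π(i_b)` iff `q(a) < q(b)`. -/
def ContainsDist (r : ℕ) {m n : ℕ} (q : Equiv.Perm (Fin m)) (π : Equiv.Perm (Fin n)) : Prop :=
  ∃ i : Fin m → Fin n, (∀ a b : Fin m, (a : ℕ) + 1 = b → (i a : ℕ) + (r + 1) ≤ i b) ∧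
    ∀ a b : Fin m, π (i a) < π (i b) ↔ q a < q b

/-- The number of permutations of size `n` that avoid `dist_r(q)`. -/
noncomputable def avCount (n r : ℕ) {m : ℕ} (q : Equiv.Perm (Fin m)) : ℕ :=
  Nat.card {π : Equiv.Perm (Fin n) // ¬ ContainsDist r q π}

/-- The identity permutation `ι_m = 1 2 ... m`. -/
def iota (m : ℕ) : Equiv.Perm (Fin m) := Equiv.refl (Fin m)

/-- The permutation `τ_m = 1 2 ... (m-2) m (m-1)`: the identity with the last two entries
exchanged. -/
def tau (m : ℕ) (hm : 3 ≤ m) : Equiv.Perm (Fin m) :=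
  Equiv.swap ⟨m - 2, by omega⟩ ⟨m - 1, by omega⟩

/-- For all `m ≥ 3`, all `r ≥ 0` and all `n`, at least as many permutations of size `n` avoid
`dist_r(1 2 ... m)` as avoid `dist_r(1 2 ... (m-2) m (m-1))`. -/
theorem result (m : ℕ) (hm : 3 ≤ m) (r n : ℕ) :
    avCount n r (tau m hm) ≤ avCount n r (iota m) := by
  obtain ⟨k, rfl⟩ : ∃ k, m = k + 3 := ⟨m - 3, by omega⟩
  exact Pool.Agent.Lib.MP_47869a_co.main r k n

end Pool.Agent.Results.MP_47869a_co.IotaDominatesTau
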